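import Mathlib

/-!
# Congruence modulo an ultrafilter: symmetry implies transitivity

We show that for every ultrafilter `w` on the integers other than the principal ultrafilter at `0`,
if the congruence relation modulo `w` is symmetric then it is transitive.  So there is no `w` for
which the relation is symmetric and not transitive.
-/

namespace Pool.Agent.Results.MP_6ac782_lc.SymmetricImpliesTransitive

open Filter

/-- The sum `u ⊕ v` of two ultrafilters on the integers:
`A ∈ u ⊕ v` iff `{x | {y | x + y ∈ A} ∈ v} ∈ u` (see `mem_oplus`). -/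
def oplus (u v : Ultrafilter ℤ) : Ultrafilter ℤ :=
  u.bind fun x => v.map fun y => x + y

/-- `-u = {-A | A ∈ u}`, the image of `u` under `x ↦ -x`. -/
def neg (u : Ultrafilter ℤ) : Ultrafilter ℤ :=
  u.map fun x => -x

/-- `u ⊖ v = u ⊕ (-v)`. -/
def ominus (u v : Ultrafilter ℤ) : Ultrafilter ℤ :=
  oplus u (neg v)

/-- A set of integers is divisibility-upward closed if `a ∈ A` and `a ∣ b` imply `b ∈ A`. -/
def DvdUpwardClosed (A : Set ℤ) : Prop :=
  ∀ a b : ℤ, a ∈ A → a ∣ b → b ∈ A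

/-- `u` divides `v` in Sobot's sense: every divisibility-upward closed set in `u` is in `v`. -/
def TildeDvd (u v : Ultrafilter ℤ) : Prop :=
  ∀ A : Set ℤ, DvdUpwardClosed A → A ∈ u → A ∈ v

/-- Congruence modulo the ultrafilter `w`: `u ≡_w v` iff `w` divides `u ⊖ v`. -/
def CongMod (w u v : Ultrafilter ℤ) : Prop :=
  TildeDvd w (ominus u v)

theorem mem_oplus (u v : Ultrafilter ℤ) (A : Set ℤ) :
    A ∈ oplus u v ↔ {x | {y | x + y ∈ A} ∈ v} ∈ u := Iff.rfl

theorem mem_ominus (u v : Ultrafilter ℤ) (A : Set ℤ) :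
    A ∈ ominus u v ↔ {x | {y | x - y ∈ A} ∈ v} ∈ u := Iff.rfl

/-- The set of `n` such that `w` contains the multiples of `n`. -/
def divs (w : Ultrafilter ℤ) : Set ℤ := {n | {m : ℤ | n ∣ m} ∈ w}

theorem dvdUpwardClosed_multiples (n : ℤ) : DvdUpwardClosed {m : ℤ | n ∣ m} :=
  fun _ _ ha hab => dvd_trans ha hab

/-- In the self-divisible case the relation is congruence modulo all `n ∈ divs w`. -/
theorem congMod_iff_of_divs_mem {w : Ultrafilter ℤ} (hw : divs w ∈ w) (u v : Ultrafilter ℤ) :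
    CongMod w u v ↔ ∀ n ∈ divs w, {x | {y | n ∣ x - y} ∈ v} ∈ u := by
  constructor
  · intro h n hn
    exact h _ (dvdUpwardClosed_multiples n) hn
  · intro h A hA hAw
    obtain ⟨n, hnA, hnD⟩ := w.nonempty_of_mem (inter_mem hAw hw)
    rw [mem_ominus]
    filter_upwards [h n hnD] with x hx
    filter_upwards [hx] with y hy
    exact hA n _ hnA hy

theorem trans_of_divs_mem {w : Ultrafilter ℤ} (hw : divs w ∈ w) {u v t : Ultrafilter ℤ}
    (huv : CongMod w u v) (hvt : CongMod w v t) : CongMod w u t := by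
  rw [congMod_iff_of_divs_mem hw] at *
  intro n hn
  filter_upwards [huv n hn] with x hx
  obtain ⟨y, hy1, hy2⟩ := v.nonempty_of_mem (inter_mem hx (hvt n hn))
  have hy1' : n ∣ x - y := hy1
  have hy2' : {z | n ∣ y - z} ∈ t := hy2
  filter_upwards [hy2'] with z hz
  have : x - z = (x - y) + (y - z) := by ring
  show n ∣ x - z
  rw [this]
  exact dvd_add hy1' hz

/-- The critical prime powers of `w`: the `p ^ (k+1)` such that `w` contains the multiples of
`p ^ k` but not those of `p ^ (k+1)`. -/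
def Crit (w : Ultrafilter ℤ) (p k : ℕ) : Prop :=
  p.Prime ∧ {m : ℤ | ((p ^ k : ℕ) : ℤ) ∣ m} ∈ w ∧ {m : ℤ | ((p ^ (k + 1) : ℕ) : ℤ) ∣ m} ∉ w

theorem mem_mult_mono {w : Ultrafilter ℤ} {a b : ℕ} (hab : a ∣ b)
    (hb : {m : ℤ | (b : ℤ) ∣ m} ∈ w) : {m : ℤ | (a : ℤ) ∣ m} ∈ w := by
  filter_upwards [hb] with m hm
  exact dvd_trans (Int.natCast_dvd_natCast.mpr hab) hm

theorem Crit.unique {w : Ultrafilter ℤ} {p k l : ℕ} (h : Crit w p k) (h' : Crit w p l) :
    k = l := by
  rcases lt_trichotomy k l with hlt | heq | hgt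
  · exact absurd (mem_mult_mono (pow_dvd_pow p hlt) h'.2.1) h.2.2
  · exact heq
  · exact absurd (mem_mult_mono (pow_dvd_pow p hgt) h.2.1) h'.2.2

/-- If all prime powers dividing `n` are in `divs w` then so is `n`. -/
theorem mem_of_primePow {w : Ultrafilter ℤ} (n : ℕ) (hn : n ≠ 0)
    (h : ∀ p k : ℕ, p.Prime → p ^ k ∣ n → {m : ℤ | ((p ^ k : ℕ) : ℤ) ∣ m} ∈ w) :
    {m : ℤ | (n : ℤ) ∣ m} ∈ w := by
  induction n using Nat.recOnPosPrimePosCoprime with
  | prime_pow p k hp hk => exact h p k hp dvd_rfl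
  | zero => exact absurd rfl hn
  | one =>
    have : {m : ℤ | ((1 : ℕ) : ℤ) ∣ m} = Set.univ := by ext m; simp
    rw [this]
    exact univ_mem
  | coprime a b ha hb hab iha ihb =>
    have h1 := iha (by omega) (fun p k hp hk => h p k hp (Dvd.dvd.mul_right hk b))
    have h2 := ihb (by omega) (fun p k hp hk => h p k hp (Dvd.dvd.mul_left hk a))
    filter_upwards [h1, h2] with m hm1 hm2
    have hm1' : (a : ℤ) ∣ m := hm1
    have hm2' : (b : ℤ) ∣ m := hm2
    show ((a * b : ℕ) : ℤ) ∣ m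
    push_cast
    exact IsCoprime.mul_dvd (Nat.isCoprime_iff_coprime.mpr hab) hm1' hm2'

/-- A nonzero integer outside `divs w` is divisible by a critical prime power. -/
theorem exists_crit_dvd {w : Ultrafilter ℤ} (n : ℕ) (hn : n ≠ 0)
    (h : {m : ℤ | (n : ℤ) ∣ m} ∉ w) : ∃ p k, Crit w p k ∧ p ^ (k + 1) ∣ n := by
  by_contra hcon
  push Not at hcon
  apply h
  apply mem_of_primePow n hn
  intro p k hp
  induction k with
  | zero =>
    intro _
    have : {m : ℤ | ((p ^ 0 : ℕ) : ℤ) ∣ m} = Set.univ := by ext m; simp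
    rw [this]
    exact univ_mem
  | succ k ih =>
    intro hk
    have hk' : p ^ k ∣ n := dvd_trans (pow_dvd_pow p (Nat.le_succ k)) hk
    by_contra hnot
    exact hcon p k ⟨hp, ih hk', hnot⟩ hk

/-- A general principle for recursive choices along the natural numbers. -/
theorem exists_seq {α : Type*} [Inhabited α] (R : ℕ → (ℕ → α) → α → Prop)
    (hR : ∀ t g, ∃ x, R t g x)
    (hcongr : ∀ t g g' x, (∀ s < t, g s = g' s) → R t g x → R t g' x) :
    ∃ f : ℕ → α, ∀ t, R t f (f t) := by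
  classical
  let F : (t : ℕ) → ((s : ℕ) → s < t → α) → α := fun t ih =>
    Classical.choose (hR t (fun s => if h : s < t then ih s h else default))
  let f : ℕ → α := fun t => WellFounded.fix Nat.lt_wfRel.wf F t
  refine ⟨f, fun t => ?_⟩
  have hf : f t = F t (fun s _ => f s) := WellFounded.fix_eq _ F t
  have hspec := Classical.choose_spec (hR t (fun s => if h : s < t then f s else default))
  rw [hf]
  refine hcongr t _ f _ ?_ hspec
  intro s hs
  simp [hs]

/-- The pigeonhole step: if `q = p ^ (k+1)` does not divide `a` and the sequence `y` takes fewer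
than `p` values modulo `q`, then some multiple `a * z` avoids all of them. -/
theorem exists_avoid {p k a : ℕ} (hp : p.Prime) (ha : ¬ p ^ (k + 1) ∣ a) (y : ℕ → ℕ)
    (hy : ∀ j, p ≤ j + 2 → p ^ (k + 1) ∣ y j) :
    ∃ z : ℕ, ∀ j, ¬ (((p ^ (k + 1) : ℕ) : ℤ) ∣ ((a * z : ℕ) : ℤ) - (y j : ℤ)) := by
  classical
  set q := p ^ (k + 1) with hq
  have hp2 := hp.two_le
  let S : Finset (ZMod q) := insert 0 ((Finset.range (p - 2)).image (fun j => ((y j : ℕ) : ZMod q)))
  let T : Finset (ZMod q) := (Finset.range p).image (fun z => ((a * z : ℕ) : ZMod q))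
  have hinj : Set.InjOn (fun z : ℕ => ((a * z : ℕ) : ZMod q)) (Finset.range p : Set ℕ) := by
    intro z hz z' hz' hzz
    have hz1 : z < p := by simpa using hz
    have hz2 : z' < p := by simpa using hz'
    by_contra hne
    apply ha
    have hdvd : (q : ℤ) ∣ (a : ℤ) * ((z : ℤ) - z') := by
      have h1 : (((a * z : ℕ) : ℤ) : ZMod q) = (((a * z' : ℕ) : ℤ) : ZMod q) := by
        simpa using hzz
      have h2 := (ZMod.intCast_eq_intCast_iff_dvd_sub _ _ _).mp h1
      have h3 : (a : ℤ) * ((z : ℤ) - z') = - (((a * z' : ℕ) : ℤ) - ((a * z : ℕ) : ℤ)) := by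
        push_cast; ring
      rw [h3]
      exact (dvd_neg).mpr h2
    have hcop : IsCoprime (q : ℤ) ((z : ℤ) - z') := by
      rw [hq]
      push_cast
      apply IsCoprime.pow_left
      rw [Prime.coprime_iff_not_dvd (Nat.prime_iff_prime_int.mp hp)]
      intro hd
      have hne' : (z : ℤ) - z' ≠ 0 := by
        intro h0
        apply hne
        omega
      have := Int.le_of_dvd (by positivity : (0 : ℤ) < |(z : ℤ) - z'|) ((dvd_abs _ _).mpr hd)
      rw [le_abs] at this
      rcases this with h | h <;> omega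
    have := hcop.dvd_of_dvd_mul_right hdvd
    exact Int.natCast_dvd_natCast.mp this
  have hT : T.card = p := by
    rw [Finset.card_image_of_injOn hinj, Finset.card_range]
  have hS : S.card < p := by
    calc S.card ≤ ((Finset.range (p - 2)).image (fun j => ((y j : ℕ) : ZMod q))).card + 1 :=
          Finset.card_insert_le _ _
      _ ≤ (p - 2) + 1 := by
          gcongr
          exact Finset.card_image_le.trans (by simp)
      _ < p := by omega
  obtain ⟨t, htT, htS⟩ := Finset.exists_mem_notMem_of_card_lt_card (hS.trans_eq hT.symm)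
  obtain ⟨z, -, hz⟩ := Finset.mem_image.mp htT
  refine ⟨z, fun j hj => htS ?_⟩
  have h1 : ((a * z : ℕ) : ZMod q) = ((y j : ℕ) : ZMod q) := by
    have := (ZMod.intCast_eq_intCast_iff_dvd_sub (y j : ℤ) ((a * z : ℕ) : ℤ) q).mpr hj
    simpa using this.symm
  rw [← hz]
  simp only [S, Finset.mem_insert, Finset.mem_image, Finset.mem_range]
  by_cases hjp : p ≤ j + 2
  · left
    rw [h1]
    exact (ZMod.natCast_eq_zero_iff _ _).mpr (hy j hjp)
  · right
    exact ⟨j, by omega, h1.symm⟩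

/-- Existence of the sequence `y`: positive, eventually divisible by every positive integer, and
divisible by the critical power of `p` from the index `p - 2` on. -/
theorem exists_y (w : Ultrafilter ℤ) : ∃ y : ℕ → ℕ, (∀ j, 0 < y j) ∧
    (∀ m, 0 < m → ∃ N, ∀ j ≥ N, m ∣ y j) ∧
    (∀ p k, Crit w p k → ∀ j, p ≤ j + 2 → p ^ (k + 1) ∣ y j) := by
  classical
  let g : ℕ → ℕ := fun p => if h : ∃ k, Crit w p k then p ^ (Classical.choose h + 1) else 1
  have hgpos : ∀ p, 0 < g p := by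
    intro p
    simp only [g]
    split_ifs with h
    · exact pow_pos (Classical.choose_spec h).1.pos _
    · exact one_pos
  have hg : ∀ p k, Crit w p k → g p = p ^ (k + 1) := by
    intro p k h
    have hex : ∃ k, Crit w p k := ⟨k, h⟩
    simp only [g, dif_pos hex]
    rw [(Classical.choose_spec hex).unique h]
  refine ⟨fun j => (j + 2).factorial * ∏ i ∈ Finset.range (j + 3), g i, ?_, ?_, ?_⟩
  · intro j
    exact Nat.mul_pos (Nat.factorial_pos _) (Finset.prod_pos fun i _ => hgpos i)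
  · intro m hm
    refine ⟨m, fun j hj => ?_⟩
    exact Dvd.dvd.mul_right (Nat.dvd_factorial hm (by omega)) _
  · intro p k h j hj
    apply Dvd.dvd.mul_left
    rw [← hg p k h]
    exact Finset.dvd_prod_of_mem g (Finset.mem_range.mpr (by omega))

/-- The combinatorial core.  Tasks are numbered `t = 2 * a + e` with `e < 2`. -/
theorem exists_x (w : Ultrafilter ℤ) (y : ℕ → ℕ)
    (hy : ∀ p k, Crit w p k → ∀ j, p ≤ j + 2 → p ^ (k + 1) ∣ y j) :
    ∃ x : ℕ → ℕ, ∀ t, 2 ≤ t → (t / 2 ∣ x t ∧ (∀ j ≤ t / 2, y j < x t) ∧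
      ∀ p k, Crit w p k → ¬ p ^ (k + 1) ∣ t / 2 →
        (∃ s < t, ∃ j ≤ s / 2, y j < x s ∧ p ^ (k + 1) ∣ x s - y j) →
        ∀ j, ¬ (((p ^ (k + 1) : ℕ) : ℤ) ∣ (x t : ℤ) - (y j : ℤ))) := by
  classical
  refine exists_seq (fun t g x => 2 ≤ t → (t / 2 ∣ x ∧ (∀ j ≤ t / 2, y j < x) ∧
      ∀ p k, Crit w p k → ¬ p ^ (k + 1) ∣ t / 2 →
        (∃ s < t, ∃ j ≤ s / 2, y j < g s ∧ p ^ (k + 1) ∣ g s - y j) →
        ∀ j, ¬ (((p ^ (k + 1) : ℕ) : ℤ) ∣ (x : ℤ) - (y j : ℤ)))) ?_ ?_
  · intro t g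
    by_cases ht : 2 ≤ t
    swap
    · exact ⟨0, fun h => absurd h ht⟩
    set a := t / 2 with ha
    have hapos : 0 < a := by omega
    -- the finite set of pairs `(p, k)` which have been decided
    let D : Finset ℕ := (Finset.range t).biUnion fun s => (Finset.range (s / 2 + 1)).biUnion
      fun j => (g s - y j).divisors
    let I : Finset (ℕ × ℕ) := (D ×ˢ (Finset.range (D.sup id + 1))).filter
      fun i => Crit w i.1 i.2 ∧ ¬ i.1 ^ (i.2 + 1) ∣ a
    have hI : ∀ p k, Crit w p k → ¬ p ^ (k + 1) ∣ a →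
        (∃ s < t, ∃ j ≤ s / 2, y j < g s ∧ p ^ (k + 1) ∣ g s - y j) → (p, k) ∈ I := by
      rintro p k hpk hna ⟨s, hs, j, hj, hlt, hdvd⟩
      have hD : p ^ (k + 1) ∈ D := by
        simp only [D, Finset.mem_biUnion, Finset.mem_range, Nat.mem_divisors]
        exact ⟨s, hs, j, by omega, hdvd, by omega⟩
      have hD' : p ∈ D := by
        simp only [D, Finset.mem_biUnion, Finset.mem_range, Nat.mem_divisors]
        exact ⟨s, hs, j, by omega, dvd_trans (dvd_pow_self p (Nat.succ_ne_zero k)) hdvd, by omega⟩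
      simp only [I, Finset.mem_filter, Finset.mem_product, Finset.mem_range]
      refine ⟨⟨hD', ?_⟩, hpk, hna⟩
      have h1 : p ^ (k + 1) ≤ D.sup id := Finset.le_sup (f := id) hD
      have h2 : k + 1 < p ^ (k + 1) := Nat.lt_pow_self hpk.1.one_lt
      omega
    have hz : ∀ i : ℕ × ℕ, ∃ z : ℕ, i ∈ I →
        ∀ j, ¬ (((i.1 ^ (i.2 + 1) : ℕ) : ℤ) ∣ ((a * z : ℕ) : ℤ) - (y j : ℤ)) := by
      intro i
      by_cases hi : i ∈ I
      · have hi' := hi
        simp only [I, Finset.mem_filter] at hi'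
        obtain ⟨z, hz⟩ := exists_avoid hi'.2.1.1 hi'.2.2 y (hy i.1 i.2 hi'.2.1)
        exact ⟨z, fun _ => hz⟩
      · exact ⟨0, fun h => absurd h hi⟩
    choose z hz using hz
    have hpair : (I : Set (ℕ × ℕ)).Pairwise
        (Function.onFun Nat.Coprime fun i => i.1 ^ (i.2 + 1)) := by
      intro i hi i' hi' hne
      have h1 : Crit w i.1 i.2 := by
        have := Finset.mem_coe.mp hi
        simp only [I, Finset.mem_filter] at this
        exact this.2.1
      have h2 : Crit w i'.1 i'.2 := by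
        have := Finset.mem_coe.mp hi'
        simp only [I, Finset.mem_filter] at this
        exact this.2.1
      have hpp : i.1 ≠ i'.1 := by
        intro heq
        apply hne
        have h3 : Crit w i.1 i'.2 := by rw [heq]; exact h2
        exact Prod.ext heq (h1.unique h3)
      exact Nat.Coprime.pow _ _ ((Nat.coprime_primes h1.1 h2.1).mpr hpp)
    have hne0 : ∀ i ∈ I, i.1 ^ (i.2 + 1) ≠ 0 := by
      intro i hi
      simp only [I, Finset.mem_filter] at hi
      exact (pow_pos hi.2.1.1.pos _).ne'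
    obtain ⟨c, hc⟩ := Nat.chineseRemainderOfFinset z (fun i => i.1 ^ (i.2 + 1)) I hne0 hpair
    set M := ∏ i ∈ I, i.1 ^ (i.2 + 1) with hM
    have hMpos : 0 < M := Finset.prod_pos fun i hi => Nat.pos_of_ne_zero (hne0 i hi)
    set K := (Finset.range (a + 1)).sup y + 1 with hK
    refine ⟨a * (c + M * K), fun _ => ⟨Dvd.intro _ rfl, ?_, ?_⟩⟩
    · intro j hj
      have h1 : y j ≤ (Finset.range (a + 1)).sup y :=
        Finset.le_sup (Finset.mem_range.mpr (by omega))
      have h2 : K ≤ M * K := Nat.le_mul_of_pos_left _ hMpos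
      have h3 : c + M * K ≤ a * (c + M * K) := Nat.le_mul_of_pos_left _ hapos
      omega
    · intro p k hpk hna hdec j hdvd
      have hmem := hI p k hpk hna hdec
      apply hz (p, k) hmem j
      have h1 : c ≡ z (p, k) [MOD p ^ (k + 1)] := hc (p, k) hmem
      have h2 : p ^ (k + 1) ∣ M := Finset.dvd_prod_of_mem (fun i : ℕ × ℕ => i.1 ^ (i.2 + 1)) hmem
      have h3 : ((p ^ (k + 1) : ℕ) : ℤ) ∣ (z (p, k) : ℤ) - (c : ℤ) := Nat.modEq_iff_dvd.mp h1
      have h4 : ((p ^ (k + 1) : ℕ) : ℤ) ∣ (M : ℤ) := Int.natCast_dvd_natCast.mpr h2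
      have h5 : ((a * z (p, k) : ℕ) : ℤ) - (y j : ℤ) =
          (((a * (c + M * K) : ℕ) : ℤ) - (y j : ℤ)) + (a : ℤ) * ((z (p, k) : ℤ) - (c : ℤ))
            - (M : ℤ) * ((a : ℤ) * K) := by
        push_cast
        ring
      show ((p ^ (k + 1) : ℕ) : ℤ) ∣ ((a * z (p, k) : ℕ) : ℤ) - (y j : ℤ)
      rw [h5]
      exact dvd_sub (dvd_add hdvd (Dvd.dvd.mul_left h3 _)) (Dvd.dvd.mul_right h4 _)
  · intro t g g' x hgg hR ht
    obtain ⟨h1, h2, h3⟩ := hR ht
    refine ⟨h1, h2, fun p k hpk hna hdec => h3 p k hpk hna ?_⟩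
    obtain ⟨s, hs, j, hj, hlt, hd⟩ := hdec
    exact ⟨s, hs, j, hj, by rw [hgg s hs]; exact hlt, by rw [hgg s hs]; exact hd⟩

/-- If `w` is not principal at `0` and not self-divisible then the relation is not symmetric. -/
theorem not_symm_of_divs_notMem {w : Ultrafilter ℤ} (hw0 : w ≠ pure 0) (hw : divs w ∉ w) :
    ∃ u v : Ultrafilter ℤ, CongMod w u v ∧ ¬ CongMod w v u := by
  classical
  -- `w` is nonprincipal
  have hcof : (w : Filter ℤ) ≤ cofinite := by
    rcases Ultrafilter.le_cofinite_or_eq_pure w with h | ⟨n, hn⟩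
    · exact h
    · exfalso
      subst hn
      apply hw
      rw [Ultrafilter.mem_pure]
      show {m : ℤ | n ∣ m} ∈ (pure n : Ultrafilter ℤ)
      rw [Ultrafilter.mem_pure]
      exact dvd_refl n
  have hfin : ∀ s : Set ℤ, s.Finite → sᶜ ∈ w := fun s hs => hcof hs.compl_mem_cofinite
  obtain ⟨y, hypos, hydiv, hyc⟩ := exists_y w
  obtain ⟨x, hx⟩ := exists_x w y hyc
  -- the two colour classes
  let P : ℕ → ℕ → ℕ → Prop := fun e p k => Crit w p k ∧
    ∀ a, 0 < a → ¬ p ^ (k + 1) ∣ a → ∀ j ≤ a,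
      ¬ (((p ^ (k + 1) : ℕ) : ℤ) ∣ (x (2 * a + e) : ℤ) - (y j : ℤ))
  have hcover : ∀ p k, Crit w p k → P 0 p k ∨ P 1 p k := by
    intro p k hpk
    by_contra hcon
    rw [not_or] at hcon
    obtain ⟨h0, h1⟩ := hcon
    simp only [P, not_and, not_forall, not_not] at h0 h1
    obtain ⟨a, ha, hna, j, hj, hd⟩ := h0 hpk
    obtain ⟨b, hb, hnb, i, hi, hd'⟩ := h1 hpk
    -- a decided prime power is avoided by all later tasks
    have key : ∀ s t i j, s < t → 2 ≤ s → ¬ p ^ (k + 1) ∣ t / 2 → j ≤ s / 2 →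
        (((p ^ (k + 1) : ℕ) : ℤ) ∣ (x s : ℤ) - (y j : ℤ)) →
        ¬ (((p ^ (k + 1) : ℕ) : ℤ) ∣ (x t : ℤ) - (y i : ℤ)) := by
      intro s t i j hst hs hnt hjs hdvd
      refine (hx t (by omega)).2.2 p k hpk hnt ⟨s, hst, j, hjs, (hx s hs).2.1 j hjs, ?_⟩ i
      have hlt := (hx s hs).2.1 j hjs
      rw [← Int.natCast_dvd_natCast, Nat.cast_sub hlt.le]
      exact hdvd
    rcases lt_trichotomy (2 * a + 0) (2 * b + 1) with hlt | heq | hgt
    · exact key _ _ i j hlt (by omega) (by rwa [show (2 * b + 1) / 2 = b by omega])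
        (by omega) hd hd'
    · omega
    · exact key _ _ j i hgt (by omega) (by rwa [show (2 * a + 0) / 2 = a by omega])
        (by omega) hd' hd
  let A : ℕ → Set ℤ := fun e => {m | ∃ p k, P e p k ∧ ((p ^ (k + 1) : ℕ) : ℤ) ∣ m}
  have hAclosed : ∀ e, DvdUpwardClosed (A e) := by
    rintro e m n ⟨p, k, hP, hd⟩ hmn
    exact ⟨p, k, hP, dvd_trans hd hmn⟩
  have hAw : A 0 ∪ A 1 ∈ w := by
    have h1 : (divs w)ᶜ ∈ w := Ultrafilter.compl_mem_iff_notMem.mpr hw
    filter_upwards [h1, hfin {0} (Set.finite_singleton 0)] with m hm hm0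
    have hm0' : m ≠ 0 := hm0
    have hm' : {l : ℤ | ((m.natAbs : ℕ) : ℤ) ∣ l} ∉ w := by
      intro hmem
      apply hm
      show {l : ℤ | m ∣ l} ∈ w
      filter_upwards [hmem] with l hl
      exact Int.natAbs_dvd.mp hl
    obtain ⟨p, k, hpk, hd⟩ := exists_crit_dvd m.natAbs (Int.natAbs_ne_zero.mpr hm0') hm'
    have hd' : ((p ^ (k + 1) : ℕ) : ℤ) ∣ m := Int.natCast_dvd.mpr hd
    rcases hcover p k hpk with h | h
    · exact Or.inl ⟨p, k, h, hd'⟩
    · exact Or.inr ⟨p, k, h, hd'⟩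
  obtain ⟨e, he, hAe⟩ : ∃ e, e < 2 ∧ A e ∈ w := by
    rcases Ultrafilter.union_mem_iff.mp hAw with h | h
    · exact ⟨0, by norm_num, h⟩
    · exact ⟨1, by norm_num, h⟩
  refine ⟨w.map fun m => (x (2 * m.natAbs + e) : ℤ),
    (hyperfilter ℕ).map fun j => (y j : ℤ), ?_, ?_⟩
  · intro B hB hBw
    rw [mem_ominus, Ultrafilter.mem_map]
    filter_upwards [hBw, hfin {0} (Set.finite_singleton 0)] with m hm hm0
    have hm0' : m ≠ 0 := hm0
    show {z | (x (2 * m.natAbs + e) : ℤ) - z ∈ B} ∈ (hyperfilter ℕ).map fun j => (y j : ℤ)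
    rw [Ultrafilter.mem_map]
    have hpos : 0 < m.natAbs := Int.natAbs_pos.mpr hm0'
    obtain ⟨N, hN⟩ := hydiv m.natAbs hpos
    have hcof2 : {j : ℕ | N ≤ j} ∈ hyperfilter ℕ := by
      apply hyperfilter_le_cofinite
      have : {j : ℕ | N ≤ j}ᶜ = Set.Iio N := by
        ext j; simp
      rw [mem_cofinite, this]
      exact Set.finite_Iio N
    filter_upwards [hcof2] with j hj
    show (x (2 * m.natAbs + e) : ℤ) - (y j : ℤ) ∈ B
    refine hB m _ hm (dvd_sub ?_ ?_)
    · have h1 := (hx (2 * m.natAbs + e) (by omega)).1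
      rw [show (2 * m.natAbs + e) / 2 = m.natAbs by omega] at h1
      exact Int.natAbs_dvd.mp (Int.natCast_dvd_natCast.mpr h1)
    · exact Int.natAbs_dvd.mp (Int.natCast_dvd_natCast.mpr (hN j hj))
  · intro hcon
    have h1 := hcon (A e) (hAclosed e) hAe
    rw [mem_ominus, Ultrafilter.mem_map] at h1
    obtain ⟨j, hj⟩ := (hyperfilter ℕ).nonempty_of_mem h1
    have hj' : {z | (y j : ℤ) - z ∈ A e} ∈ w.map fun m => (x (2 * m.natAbs + e) : ℤ) := hj
    rw [Ultrafilter.mem_map] at hj'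
    -- the multiples of each critical prime power dividing `y j` are outside `w`
    have hfinD : (⋂ d ∈ (y j).divisors, {m : ℤ | (∃ p k, Crit w p k ∧ d = p ^ (k + 1)) →
        ¬ (d : ℤ) ∣ m}) ∈ w := by
      rw [← Ultrafilter.mem_coe, Filter.biInter_finset_mem]
      intro d _
      by_cases hd : ∃ p k, Crit w p k ∧ d = p ^ (k + 1)
      · obtain ⟨p, k, hpk, rfl⟩ := hd
        have h2 := Ultrafilter.compl_mem_iff_notMem.mpr hpk.2.2
        filter_upwards [h2] with m hm _
        exact hm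
      · filter_upwards with m h
        exact absurd h hd
    have hbig : {m : ℤ | j ≤ m.natAbs} ∈ w := by
      have hf : ({m : ℤ | j ≤ m.natAbs}ᶜ).Finite := by
        apply (Set.finite_Icc (-(j : ℤ)) (j : ℤ)).subset
        intro m hm
        have hm' : ¬ j ≤ m.natAbs := hm
        rw [Set.mem_Icc]
        omega
      have := hfin _ hf
      rwa [compl_compl] at this
    obtain ⟨m, hm1, hm2, hm3, hm4⟩ := w.nonempty_of_mem
      (inter_mem hj' (inter_mem hfinD (inter_mem hbig (hfin {0} (Set.finite_singleton 0)))))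
    have hm4' : m ≠ 0 := hm4
    obtain ⟨p, k, hP, hd⟩ : ∃ p k, P e p k ∧
        ((p ^ (k + 1) : ℕ) : ℤ) ∣ (y j : ℤ) - (x (2 * m.natAbs + e) : ℤ) := hm1
    have hpos : 0 < m.natAbs := Int.natAbs_pos.mpr hm4'
    by_cases hdm : p ^ (k + 1) ∣ m.natAbs
    · -- then the prime power divides `y j`
      have h1 := (hx (2 * m.natAbs + e) (by omega)).1
      rw [show (2 * m.natAbs + e) / 2 = m.natAbs by omega] at h1
      have h2 : ((p ^ (k + 1) : ℕ) : ℤ) ∣ (x (2 * m.natAbs + e) : ℤ) :=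
        Int.natCast_dvd_natCast.mpr (dvd_trans hdm h1)
      have h3 : ((p ^ (k + 1) : ℕ) : ℤ) ∣ (y j : ℤ) := by
        have := dvd_add hd h2
        rwa [sub_add_cancel] at this
      have h4 : p ^ (k + 1) ∈ (y j).divisors :=
        Nat.mem_divisors.mpr ⟨Int.natCast_dvd_natCast.mp h3, (hypos j).ne'⟩
      have h5 := Set.mem_iInter₂.mp hm2 (p ^ (k + 1)) h4 ⟨p, k, hP.1, rfl⟩
      exact h5 (Int.natCast_dvd.mpr hdm)
    · have h1 := hP.2 m.natAbs hpos hdm j hm3
      apply h1
      have := (dvd_neg (α := ℤ)).mpr hd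
      rwa [neg_sub] at this

/-- **Main theorem.**  There is no ultrafilter `w` on the integers, other than the principal
ultrafilter at `0`, whose congruence relation is symmetric but not transitive. -/
theorem result : ∀ w : Ultrafilter ℤ, w ≠ pure 0 →
    (∀ u v : Ultrafilter ℤ, CongMod w u v → CongMod w v u) →
    (∀ u v t : Ultrafilter ℤ, CongMod w u v → CongMod w v t → CongMod w u t) := by
  intro w hw0 hsymm u v t huv hvt
  by_cases hw : divs w ∈ w
  · exact trans_of_divs_mem hw huv hvt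
  · obtain ⟨u', v', h1, h2⟩ := not_symm_of_divs_notMem hw0 hw
    exact absurd (hsymm u' v' h1) h2

end Pool.Agent.Results.MP_6ac782_lc.SymmetricImpliesTransitive
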